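import Pool.Agent.helper99.ZQ.Spec

set_option autoImplicit false
set_option linter.unusedVariables false

namespace Pool.Agent.ZQ

open Finset
open Pool.Agent.helper32.Cant
open Pool.Agent.GA (nrm chi ch St sg flp Psi rc ph pot rpot far nc gf ncs gfs good mj om pick pat et kap mult)
open Pool.Agent.ZR
open Pool.Agent.ZP
open scoped ENNReal

noncomputable section

/-- the strip -/
def ACF_S (m : ℤ) : Set (ℝ × ℝ) := {p | (m : ℝ) ≤ p.2 ∧ p.2 < m + 1}

/-- the affine map -/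
def ACF_g (m : ℤ) (p : ℝ × ℝ) : ℝ × ℝ := (p.1 + p.2 / 2, p.2 - m + 1)

theorem ACF_S_meas (m : ℤ) : MeasurableSet (ACF_S m) := by
  unfold ACF_S
  exact (measurableSet_le measurable_const measurable_snd).inter (measurableSet_lt measurable_snd measurable_const)

theorem ACF_g_meas (m : ℤ) : Measurable (ACF_g m) := by
  unfold ACF_g
  fun_prop

theorem ACF_S_cover (p : ℝ × ℝ) : ∃ m : ℤ, p ∈ ACF_S m :=
  ⟨⌊p.2⌋, Int.floor_le _, Int.lt_floor_add_one _⟩

theorem ACF_fro (ν : MeasureTheory.Measure (ℝ × ℝ)) (s A : ℝ) (h : Fro ν s A) (m : ℤ) :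
    Fro ((ν.restrict (ACF_S m)).map (ACF_g m)) s (A * 2 ^ s) := by
  intro z ρ hρ
  rw [MeasureTheory.Measure.map_apply (ACF_g_meas m) Metric.isClosed_closedBall.measurableSet]
  have hsub : ACF_g m ⁻¹' Metric.closedBall z ρ ⊆ Metric.closedBall (z.1 - (z.2 + m - 1) / 2, z.2 + m - 1) (2 * ρ) := by
    intro p hp
    simp only [Set.mem_preimage, Metric.mem_closedBall, Prod.dist_eq, Real.dist_eq, ACF_g, sup_le_iff] at hp ⊢
    obtain ⟨h1, h2⟩ := hp
    rw [abs_le] at h1 h2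
    constructor
    · rw [abs_le]; constructor <;> linarith [h1.1, h1.2, h2.1, h2.2]
    · rw [abs_le]; constructor <;> linarith [h1.1, h1.2, h2.1, h2.2]
  calc (ν.restrict (ACF_S m)) (ACF_g m ⁻¹' Metric.closedBall z ρ) ≤ ν (ACF_g m ⁻¹' Metric.closedBall z ρ) :=
        MeasureTheory.Measure.restrict_apply_le _ _
    _ ≤ ν (Metric.closedBall (z.1 - (z.2 + m - 1) / 2, z.2 + m - 1) (2 * ρ)) := MeasureTheory.measure_mono hsub
    _ ≤ ENNReal.ofReal (A * (2 * ρ) ^ s) := h _ _ (by positivity)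
    _ = ENNReal.ofReal (A * 2 ^ s * ρ ^ s) := by
        rw [Real.mul_rpow (by norm_num) hρ.le, mul_assoc]

theorem ACF_pos (ν : MeasureTheory.Measure (ℝ × ℝ)) (m : ℤ) :
    ((ν.restrict (ACF_S m)).map (ACF_g m)) {p | p.2 ≤ 0} = 0 := by
  have hm : MeasurableSet {p : ℝ × ℝ | p.2 ≤ 0} := measurableSet_le measurable_snd measurable_const
  rw [MeasureTheory.Measure.map_apply (ACF_g_meas m) hm, MeasureTheory.Measure.restrict_apply ((ACF_g_meas m) hm)]
  have : ACF_g m ⁻¹' {p : ℝ × ℝ | p.2 ≤ 0} ∩ ACF_S m = ∅ := by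
    ext p
    simp only [Set.mem_inter_iff, Set.mem_preimage, Set.mem_ofPred_eq, ACF_g, ACF_S, Set.mem_empty_iff_false, iff_false, not_and]
    intro h1 h2
    linarith
  rw [this, MeasureTheory.measure_empty]

theorem ACF (hACM : ACM_stmt) : ACF_stmt := by
  intro ν hν s A hs hF
  have h1 : ∀ m : ℤ, ∀ᵐ c ∂cmu, (((ν.restrict (ACF_S m)).map (ACF_g m)).map
      (fun p : ℝ × ℝ => p.1 + p.2 * (c - 1 / 2))).AbsolutelyContinuous MeasureTheory.volume := by
    intro m
    exact hACM _ inferInstance s (A * 2 ^ s) hs (ACF_fro ν s A hF m) (ACF_pos ν m)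
  rw [← MeasureTheory.ae_all_iff] at h1
  filter_upwards [h1] with c hc
  refine MeasureTheory.Measure.AbsolutelyContinuous.mk fun N hN hN0 => ?_
  have hmeas : Measurable (fun p : ℝ × ℝ => p.1 + c * p.2) := by fun_prop
  rw [MeasureTheory.Measure.map_apply hmeas hN]
  have hcov : (fun p : ℝ × ℝ => p.1 + c * p.2) ⁻¹' N ⊆ ⋃ m : ℤ, ((fun p : ℝ × ℝ => p.1 + c * p.2) ⁻¹' N) ∩ ACF_S m := by
    intro p hp
    obtain ⟨m, hm⟩ := ACF_S_cover p
    exact Set.mem_iUnion.2 ⟨m, hp, hm⟩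
  refine MeasureTheory.measure_mono_null hcov ?_
  rw [MeasureTheory.measure_iUnion_null_iff]
  intro m
  set t : ℝ := (m - 1) * (c - 1 / 2) with ht
  have hN' : MeasureTheory.volume ((fun x : ℝ => x + t) ⁻¹' N) = 0 := by
    rw [MeasureTheory.measure_preimage_add_right]
    exact hN0
  have hNm : MeasurableSet ((fun x : ℝ => x + t) ⁻¹' N) := (measurable_id.add_const t) hN
  have h2 := hc m hN'
  have hk : Measurable (fun p : ℝ × ℝ => p.1 + p.2 * (c - 1 / 2)) := by fun_prop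
  rw [MeasureTheory.Measure.map_apply hk hNm, MeasureTheory.Measure.map_apply (ACF_g_meas m) (hk hNm),
    MeasureTheory.Measure.restrict_apply ((ACF_g_meas m) (hk hNm))] at h2
  refine MeasureTheory.measure_mono_null ?_ h2
  rintro p ⟨hp1, hp2⟩
  refine ⟨?_, hp2⟩
  simp only [Set.mem_preimage, ACF_g] at hp1 ⊢
  have : p.1 + p.2 / 2 + (p.2 - m + 1) * (c - 1 / 2) + t = p.1 + c * p.2 := by
    rw [ht]; ring
  rw [this]
  exact hp1

end

end Pool.Agent.ZQ
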